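import Pool.Agent.H306R2.RZ.Defs2
import Pool.Agent.H423R2.RZL.UB
import Pool.Agent.H423R2.RZL.LIM
import Pool.Agent.H423R2.RZL.LIM1

set_option autoImplicit false

/-! Project RZ (helper306), second wave: UBA, LIMA, LIM1A (helper423), fully linked. -/

namespace Pool.Agent.H423R2.RZ2

open Finset Filter Topology MeasureTheory Pool.Agent.H306R2.RZ

noncomputable section

theorem UBA (F : ℝ → ℝ) (hF : TF F) (q : ℕ) (hq : Even q) (hq0 : q ≠ 0) (c : ℝ) (hc : 0 < c)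
    (s θ : ℝ) (hA : Adm s θ) :
    ∃ (C L0 : ℝ) (k : ℕ), 0 < C ∧ ∀ L : ℝ, L0 ≤ L → ∀ (w1 w2 Q1 Q2 : ℝ → ℝ) (B1 B2 B3 B4 : ℝ),
      Wt s w1 → Wt s w2 → Wt θ Q1 → Wt θ Q2 → Bd k w1 B1 → Bd k w2 B2 → Bd k Q1 B3 → Bd k Q2 B4 →
      |TT F (c * Real.exp L) q L w1 Q1 w2 Q2| ≤ C * B1 * B2 * B3 * B4 :=
  Pool.Agent.H423R2.RZL.UBn.UB F hF q hq hq0 c hc s θ hA.hs hA.hθ hA.main

theorem LIMA (F : ℝ → ℝ) (hF : TF F) (q : ℕ) (hq : Even q) (hq0 : q ≠ 0) (c : ℝ) (hc : 0 < c)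
    (s θ : ℝ) (hA : Adm s θ) (w1 w2 Q1 Q2 : ℝ → ℝ)
    (h1 : Wt s w1) (h2 : Wt s w2) (h3 : Wt θ Q1) (h4 : Wt θ Q2) :
    Tendsto (fun L : ℝ => TT F (c * Real.exp L) q L w1 Q1 w2 Q2) atTop
      (𝓝 (1 / 2 * Ft F 0 * BB w1 Q1 w2 Q2)) :=
  Pool.Agent.H423R2.RZL.LIMn.LIM F hF q hq hq0 c hc s θ hA.hs hA.hθ hA.main w1 w2 Q1 Q2 h1 h2 h3 h4

theorem LIM1A (F : ℝ → ℝ) (hF : TF F) (q : ℕ) (hq : Even q) (hq0 : q ≠ 0) (c : ℝ) (hc : 0 < c)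
    (s θ : ℝ) (hA : Adm s θ) (w Q : ℝ → ℝ) (h1 : Wt s w) (h2 : Wt θ Q) :
    Tendsto (fun L : ℝ => TO F (c * Real.exp L) q L w Q) atTop
      (𝓝 (1 / 2 * Ft F 0 * (mn w Q / 2))) :=
  Pool.Agent.H423R2.RZL.LIM1n.LIM1 F hF q hq hq0 c hc s θ (by have := hA.hs; linarith) hA.hθ
    hA.hst w Q h1 h2

end

end Pool.Agent.H423R2.RZ2
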