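import Pool.Agent.H306R2.RZ.Stubs

set_option autoImplicit false

/-!
Project RZ (helper306), task UB (helper423): uniform upper bound of the mollified second moment.
-/

namespace Pool.Agent.H423R2.RZ

open Finset Filter Topology MeasureTheory
open Pool.Agent.H306R2.RZ

noncomputable section

theorem Bd_mono {j k : ℕ} {w : ℝ → ℝ} {B : ℝ} (h : Bd k w B) (hjk : j ≤ k) : Bd j w B :=
  fun i hi y => h i (hi.trans hjk) y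

theorem Bd_nonneg {k : ℕ} {w : ℝ → ℝ} {B : ℝ} (h : Bd k w B) : 0 ≤ B :=
  (abs_nonneg _).trans (h 0 (Nat.zero_le _) 0)

theorem Wt_mono {s t : ℝ} {w : ℝ → ℝ} (h : Wt s w) (hst : s ≤ t) : Wt t w :=
  ⟨h.smooth, fun y hy => ⟨(h.supp y hy).1, (h.supp y hy).2.trans hst⟩⟩

theorem UB (F : ℝ → ℝ) (hF : TF F) (q : ℕ) (hq : Even q) (hq0 : q ≠ 0) (c : ℝ) (hc : 0 < c)
    (s θ : ℝ) (hs : 1 / 2 ≤ s) (hθ : 0 < θ) (h : 2 * s + 3 * θ < 3 / 2) :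
    ∃ (C L0 : ℝ) (k : ℕ), 0 < C ∧ ∀ L : ℝ, L0 ≤ L → ∀ (w1 w2 Q1 Q2 : ℝ → ℝ) (B1 B2 B3 B4 : ℝ),
      Wt s w1 → Wt s w2 → Wt θ Q1 → Wt θ Q2 → Bd k w1 B1 → Bd k w2 B2 → Bd k Q1 B3 → Bd k Q2 B4 →
      |TT F (c * Real.exp L) q L w1 Q1 w2 Q2| ≤ C * B1 * B2 * B3 * B4 := by
  obtain ⟨C7, η7, L7, hC7, hη7, h7⟩ := Stubs.E7 F hF q hq hq0 c hc s θ hs hθ h
  obtain ⟨C4, η4, a, L4, hC4, hη4, ha, ha1, h4⟩ :=
    Stubs.S4 F hF q hq hq0 c hc s θ hs hθ (by linarith)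
  obtain ⟨⟨C1, k1, hC1, h1⟩, -⟩ := Stubs.MT1 q hq0 s
  obtain ⟨⟨C2, L2, k2, hC2, h2⟩, -⟩ := Stubs.MT2 F hF q hq0 c hc s (by linarith)
  refine ⟨|1 / 2 * Ft F 0| * C1 + C2 + C4 + C7, max (max L7 L4) (max L2 2), max (max k1 k2) 1,
    by positivity, ?_⟩
  intro L hL w1 w2 Q1 Q2 B1 B2 B3 B4 hw1 hw2 hQ1 hQ2 b1 b2 b3 b4
  have hL7 : L7 ≤ L := ((le_max_left _ _).trans (le_max_left _ _)).trans hL
  have hL4 : L4 ≤ L := ((le_max_right _ _).trans (le_max_left _ _)).trans hL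
  have hL2 : L2 ≤ L := ((le_max_left _ _).trans (le_max_right _ _)).trans hL
  have hLt : 2 ≤ L := ((le_max_right _ _).trans (le_max_right _ _)).trans hL
  have hθs : θ ≤ s := by linarith
  have hQ1' := Wt_mono hQ1 hθs
  have hQ2' := Wt_mono hQ2 hθs
  have hX : 0 < c * Real.exp L := by positivity
  have hk1 : k1 ≤ max (max k1 k2) 1 := (le_max_left _ _).trans (le_max_left _ _)
  have hk2 : k2 ≤ max (max k1 k2) 1 := (le_max_right _ _).trans (le_max_left _ _)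
  have hk0 : 1 ≤ max (max k1 k2) 1 := le_max_right _ _
  have e1 := h1 L (by linarith) w1 w2 Q1 Q2 B1 B2 B3 B4 hw1 hw2 hQ1' hQ2' (Bd_mono b1 hk1)
    (Bd_mono b2 hk1) (Bd_mono b3 hk1) (Bd_mono b4 hk1)
  have e2 := h2 L hL2 w1 w2 Q1 Q2 B1 B2 B3 B4 hw1 hw2 hQ1' hQ2' (Bd_mono b1 hk2)
    (Bd_mono b2 hk2) (Bd_mono b3 hk2) (Bd_mono b4 hk2)
  have e4 := h4 L hL4 w1 w2 Q1 Q2 B1 B2 B3 B4 hw1 hw2 hQ1 hQ2 (Bd_mono b1 hk0)
    (Bd_mono b2 hk0) (Bd_mono b3 hk0) (Bd_mono b4 hk0)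
  have e7 := h7 L hL7 w1 w2 Q1 Q2 B1 B2 B3 B4 hw1 hw2 hQ1 hQ2 (Bd_mono b1 hk0)
    (Bd_mono b2 hk0) (Bd_mono b3 hk0) (Bd_mono b4 hk0)
  have hsh := Stubs.S5 F hF (c * Real.exp L) hX q hq0 L (by linarith) s w1 w2 Q1 Q2 hw1 hw2 hQ1' hQ2'
    (1 / 2 + a) (1 / L) (by positivity) (by
      rw [div_le_iff₀ (by linarith)]
      nlinarith) (by linarith)
  rw [hsh] at e4
  rw [Stubs.X1 F hF (c * Real.exp L) hX q hq hq0 L (by linarith) s w1 w2 Q1 Q2 hw1 hw2 hQ1' hQ2']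
  have hP : 0 ≤ B1 * B2 * B3 * B4 :=
    mul_nonneg (mul_nonneg (mul_nonneg (Bd_nonneg b1) (Bd_nonneg b2)) (Bd_nonneg b3)) (Bd_nonneg b4)
  have hexp : ∀ η : ℝ, 0 < η → Real.exp (-(η * L)) ≤ 1 := by
    intro η hη
    rw [Real.exp_le_one_iff]
    have : 0 ≤ η * L := by positivity
    linarith
  have e4' : C4 * B1 * B2 * B3 * B4 * Real.exp (-(η4 * L)) ≤ C4 * B1 * B2 * B3 * B4 := by
    have hn : 0 ≤ C4 * B1 * B2 * B3 * B4 := by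
      have : C4 * B1 * B2 * B3 * B4 = C4 * (B1 * B2 * B3 * B4) := by ring
      rw [this]; positivity
    exact mul_le_of_le_one_right hn (hexp η4 hη4)
  have e7' : C7 * B1 * B2 * B3 * B4 * Real.exp (-(η7 * L)) ≤ C7 * B1 * B2 * B3 * B4 := by
    have hn : 0 ≤ C7 * B1 * B2 * B3 * B4 := by
      have : C7 * B1 * B2 * B3 * B4 = C7 * (B1 * B2 * B3 * B4) := by ring
      rw [this]; positivity
    exact mul_le_of_le_one_right hn (hexp η7 hη7)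
  set D1 : ℝ := ∑' a : Fin 4 → ℕ, t1c q a * w4 L w1 w2 Q1 Q2 a
  set D2 : ℝ := ∑' a : Fin 4 → ℕ, t4c q a * w4 L w1 w2 Q1 Q2 a * Dsq F (c * Real.exp L) (∏ i, a i)
  set D3 : ℝ := ∑' a : Fin 4 → ℕ, t4c q a * w4 L w1 w2 Q1 Q2 a * Dns F (c * Real.exp L) (∏ i, a i)
  set T2 : ℂ := T2m F (c * Real.exp L) q L w1 w2 Q1 Q2 (1 / L)
  have f2 : |D2| ≤ C4 * B1 * B2 * B3 * B4 + C2 * B1 * B2 * B3 * B4 := by
    have g1 : |D2| = ‖(D2 : ℂ)‖ := by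
      rw [Complex.norm_real, Real.norm_eq_abs]
    rw [g1]
    calc ‖(D2 : ℂ)‖ = ‖((D2 : ℂ) - T2) + T2‖ := by rw [sub_add_cancel]
      _ ≤ ‖(D2 : ℂ) - T2‖ + ‖T2‖ := norm_add_le _ _
      _ ≤ _ := add_le_add (e4.trans e4') e2
  have f1 : |1 / 2 * Ft F 0 * D1| ≤ |1 / 2 * Ft F 0| * (C1 * B1 * B2 * B3 * B4) := by
    rw [abs_mul]
    exact mul_le_mul_of_nonneg_left e1 (abs_nonneg _)
  calc |1 / 2 * Ft F 0 * D1 + D2 + D3| ≤ |1 / 2 * Ft F 0 * D1| + |D2| + |D3| := by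
        refine (abs_add_le _ _).trans ?_
        gcongr
        exact abs_add_le _ _
    _ ≤ |1 / 2 * Ft F 0| * (C1 * B1 * B2 * B3 * B4) +
        (C4 * B1 * B2 * B3 * B4 + C2 * B1 * B2 * B3 * B4) + C7 * B1 * B2 * B3 * B4 := by
        linarith [e7.trans e7']
    _ = (|1 / 2 * Ft F 0| * C1 + C2 + C4 + C7) * B1 * B2 * B3 * B4 := by ring

end

end Pool.Agent.H423R2.RZ
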